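import Pool.Agent.Work.MP_8c8e41_lc.Main

/-!
Collinearity logic with groups of at most `k` variables is complete for the existential theory
of the reals, for every `k ≥ 3`.

The definitions of polynomial-time reductions (with Mathlib's machines
`Turing.TM2ComputableInPolyTime`), of the existential theory of the reals `ETR` and of
completeness are in `Pool.Agent.Work.PolyTime.ETR`.
-/

set_option autoImplicit false

namespace Pool.Agent.Results.MP_8c8e41_lc.ColKComplete

open Pool.Agent.Work.PolyTime

/-- An instance with groups: the groups, each given by the list of its variables, and the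
negative atoms. Variables are named by bit strings (`Name` is `List Bool`). -/
structure Inst where
  groups : List (List Name)
  neg : List (Name × Name × Name)

/-- Validity of an instance of `COL_k`: every group is listed without repetitions and has at most
`k` variables; the groups are distinct as sets, and any two of them share at most one
variable. -/
def Inst.Valid (k : ℕ) (I : Inst) : Prop :=
  (∀ G ∈ I.groups, G.Nodup ∧ G.length ≤ k) ∧
  I.groups.Pairwise (fun G H => G.toFinset ≠ H.toFinset ∧ (G.toFinset ∩ H.toFinset).card ≤ 1)

/-- The atom `COL(a, b, c)` under an assignment of points of the plane to the variables. -/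
def Col (p : Name → ℝ × ℝ) (a b c : Name) : Prop :=
  Collinear ℝ ({p a, p b, p c} : Set (ℝ × ℝ))

/-- Yes-instances: for some assignment of points, the positive atoms `COL(a, b, c)`, with
`a, b, c` in a common group, and all negative atoms hold. -/
def Inst.Yes (I : Inst) : Prop :=
  ∃ p : Name → ℝ × ℝ,
    (∀ G ∈ I.groups, ∀ a ∈ G, ∀ b ∈ G, ∀ c ∈ G, Col p a b c) ∧
    (∀ t ∈ I.neg, ¬ Col p t.1 t.2.1 t.2.2)

/-! Encoding of instances by bit strings. -/

/-- A bit is written `0` or `100`. -/
def encBit : Bool → List Bool
  | false => [false]
  | true => [true, false, false]

/-- A list is written by writing `1` before each of its elements and `0` at the end. -/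
def encList {α : Type} (e : α → List Bool) : List α → List Bool
  | [] => [false]
  | a :: l => true :: (e a ++ encList e l)

/-- A pair is written by writing `1`, the first and the second component. -/
def encPair {α β : Type} (e : α → List Bool) (f : β → List Bool) (x : α × β) : List Bool :=
  true :: (e x.1 ++ f x.2)

/-- A name is written as the list of its bits. -/
def encName : Name → List Bool := encList encBit

/-- The bit string of an instance. -/
def Inst.encode (I : Inst) : List Bool :=
  encPair (encList (encList encName)) (encList (encPair encName (encPair encName encName)))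
    (I.groups, I.neg)

/-- The decision problem `COL_k`. -/
def COL (k : ℕ) : Set (List Bool) := {w | ∃ I : Inst, w = I.encode ∧ I.Valid k ∧ I.Yes}

/-! The encoding is the one used in the proof. -/

theorem encBit_eq (b : Bool) : encBit b = (code b).ser := by cases b <;> rfl

theorem encList_eq {α : Type} [Code α] {e : α → List Bool} (h : ∀ a, e a = (code a).ser)
    (l : List α) : encList e l = (code l).ser := by
  induction l with
  | nil => rfl
  | cons a l ih =>
    rw [encList, ih, h]
    rfl

theorem encPair_eq {α β : Type} [Code α] [Code β] {e : α → List Bool} {f : β → List Bool}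
    (h : ∀ a, e a = (code a).ser) (h' : ∀ a, f a = (code a).ser) (x : α × β) :
    encPair e f x = (code x).ser := by
  rw [encPair, h, h']
  rfl

theorem encode_eq (I : Inst) : I.encode = (code (I.groups, I.neg)).ser := by
  have h := encList_eq encBit_eq
  exact encPair_eq (encList_eq (encList_eq h)) (encList_eq (encPair_eq h (encPair_eq h h))) _

theorem COL_eq (k : ℕ) : COL k =
    problem (Pool.Agent.Work.MP_8c8e41_lc.WellFormed k) Pool.Agent.Work.MP_8c8e41_lc.IsYes := by
  ext w
  constructor
  · rintro ⟨I, hw, h1, h2⟩
    exact ⟨(I.groups, I.neg), by rw [hw, encode_eq], h1, h2⟩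
  · rintro ⟨⟨G, N⟩, hw, h1, h2⟩
    exact ⟨⟨G, N⟩, by rw [hw, encode_eq], h1, h2⟩

/-- **`COL_k` is complete for the existential theory of the reals for every `k ≥ 3`.** -/
theorem result : ∀ k : ℕ, 3 ≤ k → ExistsRComplete (COL k) := by
  intro k hk
  rw [COL_eq]
  exact Pool.Agent.Work.MP_8c8e41_lc.col_complete k hk

end Pool.Agent.Results.MP_8c8e41_lc.ColKComplete
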